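import Pool.Agent.P8H39.TI.Stm7
import Pool.Agent.P8H65.TI.Hfu

/-!
# Project TI, package HFB
-/

set_option autoImplicit false

namespace Pool.Agent.P8H47.TI

open Finset Pool.Agent.P8H39.TI Pool.Agent.P8H65.TI

/-- missing sets -/
theorem miss {n k r : ℕ} {F : Finset (Finset (Fin n))} (hF : ∀ A ∈ F, A.card = k)
    {R : Finset (Fin n)} (hR : R.card = r) (hrk : r ≤ k) (V : Finset (Finset (Fin n)))
    (hV : ∀ X ∈ V, X ⊆ Rᶜ ∧ X.card = k - r ∧ R ∪ X ∉ F) :
    deg F R + V.card ≤ (n - r).choose (k - r) := by
  have hinj : Set.InjOn (fun X => R ∪ X) (V : Set (Finset (Fin n))) := by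
    intro B hB B' hB' h
    have hB1 := (hV B hB).1
    have hB2 := (hV B' hB').1
    have h' : R ∪ B = R ∪ B' := h
    ext x
    constructor
    · intro hx
      have : x ∈ R ∪ B' := by rw [← h']; exact mem_union_right _ hx
      rcases mem_union.1 this with h3 | h3
      · exact absurd h3 (mem_compl.1 (hB1 hx))
      · exact h3
    · intro hx
      have : x ∈ R ∪ B := by rw [h']; exact mem_union_right _ hx
      rcases mem_union.1 this with h3 | h3
      · exact absurd h3 (mem_compl.1 (hB2 hx))
      · exact h3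
  have hd : Disjoint (F.filter (fun A => R ⊆ A)) (V.image (fun X => R ∪ X)) := by
    rw [disjoint_left]
    intro A hA hA'
    obtain ⟨X, hX, rfl⟩ := mem_image.1 hA'
    exact (hV X hX).2.2 (mem_filter.1 hA).1
  have hsub : (F.filter (fun A => R ⊆ A)) ∪ (V.image (fun X => R ∪ X)) ⊆
      (slice n k).filter (fun A => R ⊆ A) := by
    apply union_subset (filt_sub hF R)
    intro A hA
    obtain ⟨X, hX, rfl⟩ := mem_image.1 hA
    obtain ⟨h1, h2, -⟩ := hV X hX
    refine mem_filter.2 ⟨mem_powersetCard.2 ⟨subset_univ _, ?_⟩, subset_union_left⟩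
    rw [card_union_of_disjoint (disjoint_left.2 fun x hx hx' => mem_compl.1 (h1 hx') hx), hR, h2]
    omega
  have h1 := card_le_card hsub
  rw [card_union_of_disjoint hd, card_image_of_injOn hinj, sup_card n k r R hR hrk] at h1
  exact h1

/-- the number of `q`-subsets of `U` which are disjoint from `X` -/
theorem card_disj {n q : ℕ} {U X : Finset (Fin n)} (hX : X ∈ powersetCard q U) :
    ((powersetCard q U).filter (fun Y => Disjoint X Y)).card = (U.card - q).choose q := by
  obtain ⟨h1, h2⟩ := mem_powersetCard.1 hX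
  have h3 : (powersetCard q U).filter (fun Y => Disjoint X Y) = powersetCard q (U \ X) := by
    ext Y
    simp only [mem_filter, mem_powersetCard]
    constructor
    · rintro ⟨⟨h3, h4⟩, h5⟩
      exact ⟨fun y hy => mem_sdiff.2 ⟨h3 hy, fun hx => disjoint_left.1 h5 hx hy⟩, h4⟩
    · rintro ⟨h3, h4⟩
      exact ⟨⟨h3.trans sdiff_subset, h4⟩, disjoint_left.2 fun y hx hy => (mem_sdiff.1 (h3 hy)).2 hx⟩
  rw [h3, card_powersetCard, card_sdiff_of_subset h1, h2]

/-- double counting of pairs of disjoint sets -/
theorem pairs {n q : ℕ} {U : Finset (Fin n)} (hq : 2 * q ≤ U.card)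
    (p p' : Finset (Fin n) → Prop) [DecidablePred p] [DecidablePred p']
    (h : ∀ X ∈ powersetCard q U, ∀ Y ∈ powersetCard q U, Disjoint X Y → p X ∨ p' Y) :
    U.card.choose q ≤ ((powersetCard q U).filter p).card + ((powersetCard q U).filter p').card := by
  have hc : 0 < (U.card - q).choose q := Nat.choose_pos (by omega)
  refine Nat.le_of_mul_le_mul_right ?_ hc
  have e1 : U.card.choose q * (U.card - q).choose q =
      ∑ X ∈ powersetCard q U, ∑ Y ∈ powersetCard q U, if Disjoint X Y then 1 else 0 := by
    rw [← card_powersetCard q U, ← smul_eq_mul, ← sum_const]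
    refine sum_congr rfl fun X hX => ?_
    rw [← card_disj hX, card_filter]
  have e2 : ((powersetCard q U).filter p).card * (U.card - q).choose q =
      ∑ X ∈ powersetCard q U, ∑ Y ∈ powersetCard q U, if Disjoint X Y ∧ p X then 1 else 0 := by
    rw [← smul_eq_mul, ← sum_const, sum_filter]
    refine sum_congr rfl fun X hX => ?_
    by_cases hp : p X
    · simp only [hp, and_true, if_true]
      rw [← card_disj hX, card_filter]
    · simp [hp]
  have e3 : ((powersetCard q U).filter p').card * (U.card - q).choose q =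
      ∑ X ∈ powersetCard q U, ∑ Y ∈ powersetCard q U, if Disjoint X Y ∧ p' Y then 1 else 0 := by
    rw [sum_comm, ← smul_eq_mul, ← sum_const, sum_filter]
    refine sum_congr rfl fun Y hY => ?_
    by_cases hp : p' Y
    · simp only [hp, and_true, if_true]
      rw [← card_disj hY, card_filter]
      refine sum_congr rfl fun X _ => ?_
      simp only [disjoint_comm]
    · simp [hp]
  rw [add_mul, e1, e2, e3, ← sum_add_distrib]
  refine sum_le_sum fun X hX => ?_
  rw [← sum_add_distrib]
  refine sum_le_sum fun Y hY => ?_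
  by_cases hd : Disjoint X Y
  · rcases h X hX Y hY hd with h1 | h1
    · simp [hd, h1]
    · simp [hd, h1]
  · simp [hd]

theorem t_HFB : S_HFB := by
  intro n k t r F htr hrk hkn hT
  obtain ⟨hF, hI⟩ := hT
  refine ⟨?_, ⟨?_, ?_⟩, ?_⟩
  · intro R hR
    have := miss hF hR hrk.le ∅ (by simp)
    simpa using this
  · intro A hA
    exact (mem_powersetCard.1 (mem_filter.1 hA).1).2
  · intro R hR R' hR'
    obtain ⟨hR1, hR2⟩ := mem_filter.1 hR
    obtain ⟨hR1', hR2'⟩ := mem_filter.1 hR'
    have hc : R.card = r := (mem_powersetCard.1 hR1).2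
    have hc' : R'.card = r := (mem_powersetCard.1 hR1').2
    by_contra hlt
    rw [not_le] at hlt
    have hu : (R ∪ R').card ≤ 2 * r := by
      have := card_union_le R R'
      omega
    have hU : n - 2 * r ≤ (R ∪ R')ᶜ.card := by
      rw [card_compl, Fintype.card_fin]
      omega
    have hsub : ∀ X : Finset (Fin n), X ⊆ (R ∪ R')ᶜ → X ⊆ Rᶜ ∧ X ⊆ R'ᶜ := by
      intro X hX
      constructor
      · intro x hx
        have := mem_compl.1 (hX hx)
        exact mem_compl.2 fun h => this (mem_union_left _ h)
      · intro x hx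
        have := mem_compl.1 (hX hx)
        exact mem_compl.2 fun h => this (mem_union_right _ h)
    have h1 := pairs (n := n) (q := k - r) (U := (R ∪ R')ᶜ) (by omega)
      (fun X => R ∪ X ∉ F) (fun Y => R' ∪ Y ∉ F) (by
        intro X hX Y hY hd
        by_contra hcon
        rw [not_or, not_not, not_not] at hcon
        obtain ⟨hX1, hX2⟩ := hsub X (mem_powersetCard.1 hX).1
        obtain ⟨hY1, hY2⟩ := hsub Y (mem_powersetCard.1 hY).1
        have h2 := hI _ hcon.1 _ hcon.2
        have h3 : (R ∪ X) ∩ (R' ∪ Y) ⊆ R ∩ R' := by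
          intro x hx
          obtain ⟨h1, h2⟩ := mem_inter.1 hx
          rcases mem_union.1 h1 with h1 | h1 <;> rcases mem_union.1 h2 with h2 | h2
          · exact mem_inter.2 ⟨h1, h2⟩
          · exact absurd h1 (mem_compl.1 (hY1 h2))
          · exact absurd h2 (mem_compl.1 (hX2 h1))
          · exact absurd h2 (disjoint_left.1 hd h1)
        have h4 := card_le_card h3
        omega)
    have h2 := miss hF hc hrk.le ((powersetCard (k - r) (R ∪ R')ᶜ).filter (fun X => R ∪ X ∉ F)) (by
      intro X hX
      obtain ⟨h3, h4⟩ := mem_filter.1 hX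
      exact ⟨(hsub X (mem_powersetCard.1 h3).1).1, (mem_powersetCard.1 h3).2, h4⟩)
    have h3 := miss hF hc' hrk.le ((powersetCard (k - r) (R ∪ R')ᶜ).filter (fun X => R' ∪ X ∉ F)) (by
      intro X hX
      obtain ⟨h3, h4⟩ := mem_filter.1 hX
      exact ⟨(hsub X (mem_powersetCard.1 h3).1).2, (mem_powersetCard.1 h3).2, h4⟩)
    have h4 : (n - k - r).choose (k - r) ≤ ((R ∪ R')ᶜ.card).choose (k - r) :=
      Nat.choose_le_choose _ (by omega)
    omega
  · intro T hTc hfull A hA
    by_contra hTA
    have hAc := hF A hA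
    obtain ⟨Z, hZ, hZc⟩ : ∃ Z ⊆ (A ∪ T)ᶜ, Z.card = r - t := by
      apply exists_subset_card_eq
      rw [card_compl, Fintype.card_fin]
      have := card_union_le A T
      omega
    have hZ' : ∀ x ∈ Z, x ∉ A ∧ x ∉ T := by
      intro x hx
      have := mem_compl.1 (hZ hx)
      rw [mem_union, not_or] at this
      exact this
    have hRc : (T ∪ Z).card = r := by
      rw [card_union_of_disjoint (disjoint_left.2 (fun x hx hx' => (hZ' x hx').2 hx)), hTc, hZc]
      omega
    have h1 := miss hF hRc hrk.le (powersetCard (k - r) (A ∪ (T ∪ Z))ᶜ) (by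
      intro X hX
      obtain ⟨hX1, hX2⟩ := mem_powersetCard.1 hX
      have hX3 : ∀ x ∈ X, x ∉ A ∧ x ∉ T ∪ Z := by
        intro x hx
        have := mem_compl.1 (hX1 hx)
        rw [mem_union, not_or] at this
        exact this
      refine ⟨fun x hx => mem_compl.2 (hX3 x hx).2, hX2, fun hB => ?_⟩
      have h1 := hI A hA _ hB
      have h2 : A ∩ (T ∪ Z ∪ X) ⊂ T := by
        rw [ssubset_iff_subset_ne]
        refine ⟨?_, ?_⟩
        · intro x hx
          obtain ⟨h3, h4⟩ := mem_inter.1 hx
          rcases mem_union.1 h4 with h4 | h4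
          · rcases mem_union.1 h4 with h4 | h4
            · exact h4
            · exact absurd h3 (hZ' x h4).1
          · exact absurd h3 (hX3 x h4).1
        · intro h
          apply hTA
          rw [← h]
          exact inter_subset_left
      have h3 := card_lt_card h2
      omega)
    have h2 := hfull _ hRc subset_union_left
    have h3 : (n - k - r).choose (k - r) ≤ ((A ∪ (T ∪ Z))ᶜ.card).choose (k - r) := by
      apply Nat.choose_le_choose
      rw [card_compl, Fintype.card_fin]
      have := card_union_le A (T ∪ Z)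
      omega
    rw [card_powersetCard] at h1
    omega

end Pool.Agent.P8H47.TI

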