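import Pool.Agent.P8H39.TI.Stm6

/-!
# Project TI, package UNI: uniqueness in Wilson's theorem
-/

set_option autoImplicit false

namespace Pool.Agent.P8H47.TI

open Finset Pool.Agent.P8H39.TI

/-- the indicator of `F` sums to the size of `F` over the slice -/
theorem sum_ind {n k t : ℕ} {F : Finset (Finset (Fin n))} (hF : TInt k t F) :
    ∑ A ∈ slice n k, (if A ∈ F then (1 : ℝ) else 0) = (F.card : ℝ) := by
  rw [← Finset.sum_filter, Finset.sum_const, nsmul_eq_mul, mul_one]
  congr 2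
  ext A
  simp only [mem_filter, mem_powersetCard]
  exact ⟨fun h => h.2, fun h => ⟨⟨subset_univ _, hF.1 A h⟩, h⟩⟩

theorem t_UNI (hNUL : S_NUL) (hPRJ : S_PRJ) (hSUP : S_SUP) (hHB : S_HB) : S_UNI := by
  intro n k t F ht htk hn hn2 hF hcard
  obtain ⟨x, h0, h1, h2, h3, h4, -⟩ := hHB n k (by omega) (fun A => if A ∈ F then (1 : ℝ) else 0)
  have hsum := sum_ind hF
  have hsq : ∑ A ∈ slice n k, (if A ∈ F then (1 : ℝ) else 0) ^ 2 = (F.card : ℝ) := by
    rw [← hsum]
    refine Finset.sum_congr rfl fun A _ => ?_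
    split_ifs <;> norm_num
  have hx : ∀ j, t < j → j ≤ k → x j = 0 :=
    hNUL n k t F x ht htk hn hF hcard h0 (h1.trans hsq) (h2.trans (by rw [hsum])) h4
  obtain ⟨g, hg⟩ := hPRJ n k t _ x (by omega) htk.le h1 h3 hx
  have hpos : 0 < F.card := by
    rw [hcard]
    exact Nat.choose_pos (by omega)
  obtain ⟨A, hA⟩ := Finset.card_pos.1 hpos
  have hsl : ∀ B : Finset (Fin n), B.card = k → B ∈ slice n k := fun B hB =>
    mem_powersetCard.2 ⟨subset_univ _, hB⟩
  have hα : ∀ α ∈ F, ∀ T : Finset (Fin n), T.card = t → ¬ T ⊆ α → g T = 0 := by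
    intro α hα
    refine hSUP n k t α g htk.le (by omega) (hF.1 α hα) ?_
    intro β hβ hlt
    rw [← hg β (hsl β hβ)]
    refine if_neg fun h => ?_
    have h6 := hF.2 β h α hα
    omega
  have h1A : dn t g A = 1 := by
    rw [← hg A (hsl A (hF.1 A hA))]
    exact if_pos hA
  obtain ⟨T, hT, hne⟩ : ∃ T ∈ powersetCard t A, g T ≠ 0 := by
    refine Finset.exists_ne_zero_of_sum_ne_zero ?_
    change dn t g A ≠ 0
    rw [h1A]
    exact one_ne_zero
  exact ⟨T, (mem_powersetCard.1 hT).2, fun B hB => by_contra fun hnot =>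
    hne (hα B hB T (mem_powersetCard.1 hT).2 hnot)⟩

end Pool.Agent.P8H47.TI

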